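import Pool.Agent.Lib.MP_b03ab8_lc.D.Hard
import Pool.Agent.Lib.MP_b03ab8_lc.B.Main
import Pool.Agent.Lib.MP_b03ab8_lc.B.MSize

/-!
# Computing the frequencies of linear graphs is PSPACE-complete

The standing assumption of the field is that the tasks are not reentrant: the successive
occurrences of a task are executed one after the other, i.e. the loops
`t(i,k) + p_i ≤ t(i,k+1)` are among the constraints. (Without it the limit that defines the
frequency need not exist, and a consistent graph can have a circuit of weight `< 1`.)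

First part (hardness): for every quantified Boolean formula `Φ` the explicit linear graph
`Φ.graph` is consistent, non-reentrant, strongly connected, balanced (so unitary), has all
processing times `1` and integers at most `4 n + 8` (`n` variables), its size is polynomial in
the length of `Φ`, and all its tasks have the frequency `M / (L M + 1)` if `Φ` is true and
`1 / L` if `Φ` is false, where `M = lcm (1, ..., 4 n + 8)` (the product of the largest powers
`≤ 4 n + 8` of the primes) and `L` is the number of layers.

Second part (membership): for every consistent non-reentrant linear graph `G` every task has a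
positive rational frequency whose numerator and denominator have `O(size G)` bits, and for all
numbers `a`, `b` an explicit bit machine (memory bits and a straight line program of gates that
is executed over and over again) of size polynomial in the sizes of `G`, `a`, `b` accepts iff
`a / b` is smaller than the frequency.
-/

open Pool.Agent.LinSched

namespace Pool.Agent.Results.MP_b03ab8_lc.PSPACEComplete

/-- Main theorem. -/
theorem result :
    (∀ Φ : QBF,
      Φ.graph.Consistent ∧ Φ.graph.NonReentrant ∧ Φ.graph.StronglyConnected ∧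
      Φ.graph.Balanced ∧ (∀ u, Φ.graph.p u = 1) ∧
      (∀ e ∈ Φ.graph.arcs, e.α ≤ 4 * Φ.n + 8 ∧ e.α' ≤ 4 * Φ.n + 8 ∧
        e.h.natAbs ≤ 4 * Φ.n + 8 ∧ e.h'.natAbs ≤ 4 * Φ.n + 8) ∧
      Φ.graph.size ≤ 100 * (5120 * (Φ.len + 2) ^ 3) ^ 5 ∧
      ∀ u, Φ.graph.HasFrequency u
        (if Φ.truth then (MM (4 * Φ.n + 8) : ℝ) / (Φ.CA.L * MM (4 * Φ.n + 8) + 1)
          else 1 / (Φ.CA.L : ℝ))) ∧
    (∀ (N : ℕ) (G : LinGraph (Fin N)), G.Consistent → G.NonReentrant → ∀ i : Fin N,
      ∃ x y : ℕ, 0 < x ∧ 0 < y ∧
        x ≤ 2 ^ (8 * (G.size + 1)) ∧ y ≤ 2 ^ (10 * (G.size + 1)) ∧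
        G.HasFrequency i ((y : ℝ) / x) ∧
        ∀ a b : ℕ, 0 < b →
          (G.machine i a b).size ≤ 20000 * (G.size + a.size + b.size + 1) ^ 2 ∧
          ((G.machine i a b).Accepts ↔ (a : ℝ) / b < (y : ℝ) / x)) := by
  refine ⟨fun Φ => ?_, fun N G hc hn i => ?_⟩
  · obtain ⟨h1, h2, h3, h4, h5, h6⟩ := hard_main Φ
    refine ⟨h1, h2, h3, h4, h5, hard_integers Φ, hard_size Φ, fun u => ?_⟩
    have h7 := h6 u
    have hM : (MM Φ.N : ℝ) ≠ 0 := by exact_mod_cast (MM_pos Φ.N).ne'
    have hL : (Φ.CA.L : ℝ) ≠ 0 := by exact_mod_cast Φ.CA.Lpos.ne'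
    have hN : Φ.N = 4 * Φ.n + 8 := rfl
    rw [← hN]
    cases ht : Φ.truth with
    | true =>
      rw [ht] at h7
      simpa using h7
    | false =>
      rw [ht] at h7
      have h8 : (MM Φ.N : ℝ) / (Φ.CA.L * MM Φ.N + false.toNat : ℕ) = 1 / (Φ.CA.L : ℝ) := by
        simp only [Bool.toNat_false, add_zero]
        push_cast
        field_simp
      rw [h8] at h7
      simpa using h7
  · obtain ⟨x, y, hx, hy, h1, h2, h3, h4⟩ := member_main G hc hn i
    exact ⟨x, y, hx, hy, h1, h2, h3, fun a b hb => ⟨machine_size G i a b, h4 a b hb⟩⟩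

end Pool.Agent.Results.MP_b03ab8_lc.PSPACEComplete
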