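import Mathlib

open Filter Topology Finset

namespace Pool.Agent.Results.MP_b03ab8_lc.PSPACEHard

/-! ## Linear graphs, schedules, frequencies -/

/-- An arc from the generic task `src` to the generic task `dst` with its four integers. -/
structure Arc (T : Type) where
  src : T
  dst : T
  α : ℕ
  α' : ℕ
  h : ℤ
  h' : ℤ

/-- A linear graph on the set `T` of generic tasks: processing times `p i ≥ 1` and finitely many
arcs with `α, α' ≥ 1`. -/
structure LinGraph (T : Type) where
  p : T → ℕ
  arcs : Multiset (Arc T)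
  p_pos : ∀ i, 0 < p i
  arcs_pos : ∀ e ∈ arcs, 0 < e.α ∧ 0 < e.α'

variable {T : Type}

/-- `t i k` is the start time of the `k`-th occurrence (`k ≥ 1`) of task `i`; start times are
nonnegative and all linear precedence constraints are satisfied. -/
def LinGraph.IsSchedule (G : LinGraph T) (t : T → ℕ → ℝ) : Prop :=
  (∀ i k, 1 ≤ k → 0 ≤ t i k) ∧
  ∀ e ∈ G.arcs, ∀ k : ℤ, 0 < k → ∀ m n : ℕ, 1 ≤ m → 1 ≤ n →
    (m : ℤ) = e.α' * k + e.h' → (n : ℤ) = e.α * k + e.h →
    t e.src m + G.p e.src ≤ t e.dst n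

/-- A linear graph is consistent if it has a schedule. -/
def LinGraph.Consistent (G : LinGraph T) : Prop := ∃ t, G.IsSchedule t

/-- The earliest schedule: the pointwise smallest one. -/
def LinGraph.IsEarliest (G : LinGraph T) (t : T → ℕ → ℝ) : Prop :=
  G.IsSchedule t ∧ ∀ s, G.IsSchedule s → ∀ i k, 1 ≤ k → t i k ≤ s i k

/-- Task `i` has frequency `φ`: in the earliest schedule `k / t(i,k) → φ`. -/
def LinGraph.HasFrequency (G : LinGraph T) (i : T) (φ : ℝ) : Prop :=
  ∃ t, G.IsEarliest t ∧ Tendsto (fun k : ℕ => (k : ℝ) / t i k) atTop (𝓝 φ)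

/-- Strong connectivity. -/
def LinGraph.StronglyConnected (G : LinGraph T) : Prop :=
  ∀ i j, Relation.ReflTransGen (fun a b => ∃ e ∈ G.arcs, e.src = a ∧ e.dst = b) i j

/-- There are no two different arcs with the same end points. -/
def LinGraph.Simple (G : LinGraph T) : Prop :=
  ∀ e ∈ G.arcs, ∀ f ∈ G.arcs, e.src = f.src → e.dst = f.dst → e = f

/-- Every arc has `α = α'` (so every circuit has weight one). -/
def LinGraph.Balanced (G : LinGraph T) : Prop := ∀ e ∈ G.arcs, e.α = e.α'

/-- Binary size of a linear graph: for every task its processing time in binary and for every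
arc the names of its two end points and its four integers in binary. -/
def LinGraph.size [Fintype T] (G : LinGraph T) : ℕ :=
  ∑ i, (1 + (G.p i).size) +
  (G.arcs.map fun e => 2 * (Fintype.card T).size + e.α.size + e.α'.size
    + (1 + e.h.natAbs.size) + (1 + e.h'.natAbs.size)).sum

/-! ## Linear bounded automata -/

/-- A deterministic linear bounded automaton with states `Fin q`, tape alphabet `Fin a`; the
transition gives the new state, the written symbol and the direction (`true` = right). -/
structure LBA (q a : ℕ) where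
  δ : Fin q → Fin a → Fin q × Fin a × Bool
  start : Fin q
  accept : Fin q

/-- Configurations on a tape with `N + 1` cells: state, head position, tape content. -/
abbrev Config (q a N : ℕ) : Type := Fin q × Fin (N + 1) × (Fin (N + 1) → Fin a)

/-- Head movement; the head stays inside the tape. -/
def move {N : ℕ} (d : Bool) (j : Fin (N + 1)) : Fin (N + 1) :=
  if d then ⟨min (j + 1) N, by omega⟩ else ⟨j - 1, by omega⟩

variable {q a N : ℕ}

/-- One step of the machine. -/
def LBA.step (M : LBA q a) (c : Config q a N) : Config q a N :=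
  ((M.δ c.1 (c.2.2 c.2.1)).1, move (M.δ c.1 (c.2.2 c.2.1)).2.2 c.2.1,
    Function.update c.2.2 c.2.1 (M.δ c.1 (c.2.2 c.2.1)).2.1)

/-- The machine, started on the tape content `x` with the head on cell `0`, reaches the
accepting state. -/
def LBA.Accepts (M : LBA q a) (x : Fin (N + 1) → Fin a) : Prop :=
  ∃ m : ℕ, (M.step^[m] (M.start, 0, x)).1 = M.accept

/-! ## The reduction -/

/-- The tasks of the linear graph. -/
inductive Task (q a N : ℕ) : Type
  | clock : Task q a N
  | acc : Task q a N
  | chk : Fin (N + 2) → Task q a N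
  | st : Fin q → Fin (N + 1) → Task q a N
  | rd : Fin q → Fin (N + 1) → Fin a → Task q a N

/-- The tasks as a sum type. -/
def Task.toSum : Task q a N →
    Unit ⊕ Unit ⊕ Fin (N + 2) ⊕ (Fin q × Fin (N + 1)) ⊕ (Fin q × Fin (N + 1) × Fin a)
  | .clock => Sum.inl ()
  | .acc => Sum.inr (Sum.inl ())
  | .chk j => Sum.inr (Sum.inr (Sum.inl j))
  | .st s i => Sum.inr (Sum.inr (Sum.inr (Sum.inl (s, i))))
  | .rd s i b => Sum.inr (Sum.inr (Sum.inr (Sum.inr (s, i, b))))

lemma Task.toSum_injective : Function.Injective (Task.toSum : Task q a N → _) := by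
  intro t t' h
  cases t <;> cases t' <;> simp_all [Task.toSum]

noncomputable instance : Fintype (Task q a N) := Fintype.ofInjective _ Task.toSum_injective

/-- The number of cells plus the size of the tape alphabet. -/
def K (a N : ℕ) : ℕ := N + 1 + a

/-- The moduli, one for each tape cell; they are pairwise coprime and larger than `a`. -/
def md (a N : ℕ) (j : Fin (N + 1)) : ℕ := (j + 1) * (K a N).factorial + 1

/-- The product of all moduli. -/
def prd (a N : ℕ) : ℕ := ∏ j, md a N j

/-- The product of all moduli except the `j`-th one. -/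
def co (a N : ℕ) (j : Fin (N + 1)) : ℕ := ∏ i ∈ univ.erase j, md a N i

/-- The residue (modulo `prd`) that encodes a tape content. -/
def code (τ : Fin (N + 1) → Fin a) : ℕ := ∑ j, (τ j : ℕ) * co a N j

/-- A bound for the total shift of the shortest accepting computation. -/
def base (q a N : ℕ) : ℕ := 3 * (q * (N + 1) * a ^ (N + 1) + N + 3) * prd a N + 4

/-- The processing time of the accepting task. -/
def bonus (R q a N : ℕ) : ℕ := 2 ^ R * (prd a N * base q a N) + base q a N

/-- The shift on the arcs from the clock to the other tasks. -/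
def delay (R q a N : ℕ) : ℕ := prd a N * bonus R q a N

/-- The processing times. -/
def pt (R : ℕ) : Task q a N → ℕ
  | .acc => bonus R q a N
  | _ => 1

lemma md_pos (j : Fin (N + 1)) : 0 < md a N j := by unfold md; omega

lemma prd_pos : 0 < prd a N := Finset.prod_pos fun j _ => md_pos j

lemma co_pos (j : Fin (N + 1)) : 0 < co a N j := Finset.prod_pos fun j _ => md_pos j

lemma base_pos : 0 < base q a N := by unfold base; omega

lemma bonus_pos {R : ℕ} : 0 < bonus R q a N := by
  have := base_pos (q := q) (a := a) (N := N)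
  unfold bonus; omega

lemma pt_pos (R : ℕ) (i : Task q a N) : 0 < pt R i := by
  cases i <;> simp [pt, bonus_pos]

/-- The arc from `i` to `j` with `α = α' = g`, `h' = o` and `h = o + s`: occurrence `n` of `i`
precedes occurrence `n + s` of `j` whenever `n = g * k + o` with `k ≥ 1`. -/
def mkArc (i j : Task q a N) (g o s : ℕ) : Arc (Task q a N) where
  src := i
  dst := j
  α := g
  α' := g
  h := (o : ℤ) + s
  h' := o

/-- The arcs of the graph. -/
noncomputable def arcs (R : ℕ) (M : LBA q a) (x : Fin (N + 1) → Fin a) :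
    Multiset (Arc (Task q a N)) :=
  (univ.val.map fun i => mkArc i .clock 1 0 1)
  + {mkArc .clock .acc 1 0 (delay R q a N)}
  + {mkArc .clock (.chk 0) 1 0 (prd a N)}
  + (univ.val.map fun j : Fin (N + 1) => mkArc .clock (.chk j.succ) 1 0 (delay R q a N))
  + (univ.val.map fun c : Fin q × Fin (N + 1) =>
      mkArc .clock (.st c.1 c.2) 1 0 (delay R q a N))
  + (univ.val.map fun c : Fin q × Fin (N + 1) × Fin a =>
      mkArc .clock (.rd c.1 c.2.1 c.2.2) 1 0 (delay R q a N))
  + (univ.val.map fun j : Fin (N + 1) =>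
      mkArc (.chk j.castSucc) (.chk j.succ) (md a N j) (x j * co a N j % md a N j) (prd a N))
  + {mkArc (.chk (Fin.last (N + 1))) (.st M.start 0) 1 0 (prd a N)}
  + (univ.val.map fun c : Fin q × Fin (N + 1) × Fin a =>
      mkArc (.st c.1 c.2.1) (.rd c.1 c.2.1 c.2.2) (md a N c.2.1)
        (c.2.2 * co a N c.2.1 % md a N c.2.1) (prd a N))
  + (univ.val.map fun c : Fin q × Fin (N + 1) × Fin a =>
      mkArc (.rd c.1 c.2.1 c.2.2) (.st (M.δ c.1 c.2.2).1 (move (M.δ c.1 c.2.2).2.2 c.2.1)) 1 0
        ((md a N c.2.1 + (M.δ c.1 c.2.2).2.1 - c.2.2) * co a N c.2.1))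
  + (univ.val.map fun i : Fin (N + 1) => mkArc (.st M.accept i) .acc 1 0 1)

/-! The same arcs, described by functions of the two end points. -/

/-- The arcs of the graph. -/
def isArc (M : LBA q a) : Task q a N → Task q a N → Bool
  | _, .clock => true
  | .clock, _ => true
  | .chk j, .chk j' => decide ((j' : ℕ) = j + 1)
  | .chk j, .st s i => decide ((j : ℕ) = N + 1 ∧ s = M.start ∧ i = 0)
  | .st s i, .rd s' i' _ => decide (s' = s ∧ i' = i)
  | .rd s i b, .st s' i' => decide (s' = (M.δ s b).1 ∧ i' = move (M.δ s b).2.2 i)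
  | .st s _, .acc => decide (s = M.accept)
  | _, _ => false

/-- The modulus of an arc (the value of both `α` and `α'`). -/
def gm : Task q a N → Task q a N → ℕ
  | .chk j, .chk _ => if hj : (j : ℕ) < N + 1 then md a N ⟨j, hj⟩ else 1
  | .st _ i, .rd _ _ _ => md a N i
  | _, _ => 1

/-- The offset `h'` of an arc. -/
def off (x : Fin (N + 1) → Fin a) : Task q a N → Task q a N → ℕ
  | .chk j, .chk _ => if hj : (j : ℕ) < N + 1 then
      ((x ⟨j, hj⟩ : ℕ) * co a N ⟨j, hj⟩) % md a N ⟨j, hj⟩ else 0
  | .st _ i, .rd _ _ b => ((b : ℕ) * co a N i) % md a N i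
  | _, _ => 0

/-- The shift `h - h'` of an arc. -/
def sh (R : ℕ) (M : LBA q a) : Task q a N → Task q a N → ℕ
  | _, .clock => 1
  | .clock, .chk j => if (j : ℕ) = 0 then prd a N else delay R q a N
  | .clock, _ => delay R q a N
  | .chk _, _ => prd a N
  | .st _ _, .rd _ _ _ => prd a N
  | .rd s i b, _ => (md a N i + (M.δ s b).2.1 - b) * co a N i
  | _, _ => 1

lemma gm_pos (i j : Task q a N) : 0 < gm i j := by
  unfold gm
  split
  · split
    · exact md_pos _
    · exact one_pos
  · exact md_pos _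
  · exact one_pos

lemma mem_arcs (R : ℕ) (M : LBA q a) (x : Fin (N + 1) → Fin a) (e : Arc (Task q a N)) :
    e ∈ arcs R M x ↔
      ∃ i j, isArc M i j = true ∧ e = mkArc i j (gm i j) (off x i j) (sh R M i j) := by
  simp only [arcs, Multiset.mem_add, Multiset.mem_map, Multiset.mem_singleton, Finset.mem_val,
    mem_univ, true_and]
  constructor
  · rintro ((((((((((⟨i, rfl⟩ | rfl) | rfl) | ⟨j, rfl⟩) | ⟨c, rfl⟩) | ⟨c, rfl⟩) | ⟨j, rfl⟩) |
      rfl) | ⟨c, rfl⟩) | ⟨c, rfl⟩) | ⟨i, rfl⟩)
    · exact ⟨i, .clock, by cases i <;> rfl, by cases i <;> rfl⟩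
    · exact ⟨.clock, .acc, rfl, rfl⟩
    · exact ⟨.clock, .chk 0, rfl, by simp [gm, off, sh]⟩
    · exact ⟨.clock, .chk j.succ, rfl, by simp [gm, off, sh]⟩
    · exact ⟨.clock, .st c.1 c.2, rfl, rfl⟩
    · exact ⟨.clock, .rd c.1 c.2.1 c.2.2, rfl, rfl⟩
    · exact ⟨.chk j.castSucc, .chk j.succ, by simp [isArc], by simp [gm, off, sh, j.2]⟩
    · exact ⟨.chk (Fin.last (N + 1)), .st M.start 0, by simp [isArc], rfl⟩
    · exact ⟨.st c.1 c.2.1, .rd c.1 c.2.1 c.2.2, by simp [isArc], rfl⟩
    · exact ⟨.rd c.1 c.2.1 c.2.2, .st (M.δ c.1 c.2.2).1 (move (M.δ c.1 c.2.2).2.2 c.2.1),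
        by simp [isArc], rfl⟩
    · exact ⟨.st M.accept i, .acc, by simp [isArc], rfl⟩
  · rintro ⟨i, j, hij, rfl⟩
    cases j with
    | clock =>
      refine Or.inl (Or.inl (Or.inl (Or.inl (Or.inl (Or.inl (Or.inl (Or.inl (Or.inl (Or.inl
        ⟨i, ?_⟩)))))))))
      cases i <;> rfl
    | acc =>
      cases i with
      | clock =>
        exact Or.inl (Or.inl (Or.inl (Or.inl (Or.inl (Or.inl (Or.inl (Or.inl (Or.inl (Or.inr
          rfl)))))))))
      | acc => simp [isArc] at hij
      | chk j => simp [isArc] at hij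
      | st s i =>
        have h : s = M.accept := by simpa [isArc] using hij
        subst h
        exact Or.inr ⟨i, rfl⟩
      | rd s i b => simp [isArc] at hij
    | chk j' =>
      cases i with
      | clock =>
        rcases Fin.eq_zero_or_eq_succ j' with h | ⟨j, h⟩
        · subst h
          refine Or.inl (Or.inl (Or.inl (Or.inl (Or.inl (Or.inl (Or.inl (Or.inl (Or.inr
            ?_))))))))
          simp [gm, off, sh]
        · subst h
          refine Or.inl (Or.inl (Or.inl (Or.inl (Or.inl (Or.inl (Or.inl (Or.inr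
            ⟨j, ?_⟩)))))))
          simp [gm, off, sh]
      | acc => simp [isArc] at hij
      | chk j =>
        have h : (j' : ℕ) = j + 1 := by simpa [isArc] using hij
        have h1 : (j : ℕ) < N + 1 := by have := j'.2; omega
        obtain ⟨j, rfl⟩ : ∃ k : Fin (N + 1), j = k.castSucc := ⟨⟨j, h1⟩, rfl⟩
        obtain rfl : j' = j.succ := Fin.ext (by simpa using h)
        refine Or.inl (Or.inl (Or.inl (Or.inl (Or.inr ⟨j, ?_⟩))))
        simp [gm, off, sh, j.2]
      | st s i => simp [isArc] at hij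
      | rd s i b => simp [isArc] at hij
    | st s' i' =>
      cases i with
      | clock =>
        exact Or.inl (Or.inl (Or.inl (Or.inl (Or.inl (Or.inl (Or.inr ⟨(s', i'), rfl⟩))))))
      | acc => simp [isArc] at hij
      | chk j =>
        have h : (j : ℕ) = N + 1 ∧ s' = M.start ∧ i' = 0 := by simpa [isArc] using hij
        obtain ⟨h1, rfl, rfl⟩ := h
        obtain rfl : j = Fin.last (N + 1) := Fin.ext (by simpa using h1)
        exact Or.inl (Or.inl (Or.inl (Or.inr rfl)))
      | st s i => simp [isArc] at hij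
      | rd s i b =>
        have h : s' = (M.δ s b).1 ∧ i' = move (M.δ s b).2.2 i := by simpa [isArc] using hij
        obtain ⟨rfl, rfl⟩ := h
        exact Or.inl (Or.inr ⟨(s, i, b), rfl⟩)
    | rd s' i' b' =>
      cases i with
      | clock =>
        exact Or.inl (Or.inl (Or.inl (Or.inl (Or.inl (Or.inr ⟨(s', i', b'), rfl⟩)))))
      | acc => simp [isArc] at hij
      | chk j => simp [isArc] at hij
      | st s i =>
        have h : s' = s ∧ i' = i := by simpa [isArc] using hij
        obtain ⟨rfl, rfl⟩ := h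
        exact Or.inl (Or.inl (Or.inr ⟨(s', i', b'), rfl⟩))
      | rd s i b => simp [isArc] at hij

/-- The linear graph built from the machine `M`, the tape content `x` and the gap parameter
`R`. -/
noncomputable def graph (R : ℕ) (M : LBA q a) (x : Fin (N + 1) → Fin a) :
    LinGraph (Task q a N) where
  p := pt R
  arcs := arcs R M x
  p_pos := pt_pos R
  arcs_pos := by
    intro e he
    obtain ⟨i, j, -, rfl⟩ := (mem_arcs R M x e).1 he
    exact ⟨gm_pos i j, gm_pos i j⟩

/-! ## General facts on schedules -/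

lemma LinGraph.exists_earliest (G : LinGraph T) (hG : G.Consistent) : ∃ t, G.IsEarliest t := by
  obtain ⟨s0, hs0⟩ := hG
  set S : T → ℕ → Set ℝ := fun i k => {r | ∃ s, G.IsSchedule s ∧ r = s i k} with hS
  have hne : ∀ i k, (S i k).Nonempty := fun i k => ⟨s0 i k, s0, hs0, rfl⟩
  have hbdd : ∀ i k, 1 ≤ k → BddBelow (S i k) := by
    intro i k hk
    refine ⟨0, ?_⟩
    rintro r ⟨s, hs, rfl⟩
    exact hs.1 i k hk
  refine ⟨fun i k => sInf (S i k), ⟨?_, ?_⟩, ?_⟩
  · intro i k hk
    refine le_csInf (hne i k) ?_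
    rintro r ⟨s, hs, rfl⟩
    exact hs.1 i k hk
  · intro e he k hk m n hm hn h1 h2
    refine le_csInf (hne e.dst n) ?_
    rintro r ⟨s, hs, rfl⟩
    have := hs.2 e he k hk m n hm hn h1 h2
    have h3 : sInf (S e.src m) ≤ s e.src m := csInf_le (hbdd e.src m hm) ⟨s, hs, rfl⟩
    linarith
  · intro s hs i k hk
    exact csInf_le (hbdd i k hk) ⟨s, hs, rfl⟩

lemma isSchedule_iff (R : ℕ) (M : LBA q a) (x : Fin (N + 1) → Fin a) (t : Task q a N → ℕ → ℝ) :
    (graph R M x).IsSchedule t ↔ (∀ i k, 1 ≤ k → 0 ≤ t i k) ∧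
      ∀ i j, isArc M i j = true → ∀ k : ℕ, 1 ≤ k →
        t i (gm i j * k + off x i j) + pt R i ≤ t j (gm i j * k + off x i j + sh R M i j) := by
  constructor
  · rintro ⟨h0, h1⟩
    refine ⟨h0, ?_⟩
    intro i j hij k hk
    have hpos : 1 ≤ gm i j * k := Nat.mul_pos (gm_pos i j) hk
    refine h1 _ ((mem_arcs R M x _).2 ⟨i, j, hij, rfl⟩) (k : ℤ) (by exact_mod_cast hk) _ _
      (by omega) (by omega) ?_ ?_
    · simp [mkArc]
    · simp [mkArc]; ring
  · rintro ⟨h0, h1⟩
    refine ⟨h0, ?_⟩
    intro e he k hk m n hm hn e1 e2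
    obtain ⟨i, j, hij, rfl⟩ := (mem_arcs R M x e).1 he
    obtain ⟨k', rfl⟩ : ∃ k' : ℕ, k = k' := ⟨k.toNat, by omega⟩
    have hk' : 1 ≤ k' := by exact_mod_cast hk
    have := h1 i j hij k' hk'
    have e1' : m = gm i j * k' + off x i j := by
      have : (m : ℤ) = ((gm i j * k' + off x i j : ℕ) : ℤ) := by
        simpa [mkArc] using e1
      exact_mod_cast this
    have e2' : n = gm i j * k' + off x i j + sh R M i j := by
      have : (n : ℤ) = ((gm i j * k' + off x i j + sh R M i j : ℕ) : ℤ) := by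
        rw [e2]; simp [mkArc]; ring
      exact_mod_cast this
    rw [e1', e2']
    exact this

lemma lt_md (b : Fin a) (j : Fin (N + 1)) : (b : ℕ) < md a N j := by
  have h1 : K a N ≤ (K a N).factorial := Nat.self_le_factorial _
  have h2 : a ≤ K a N := by unfold K; omega
  have h3 : (K a N).factorial ≤ (j + 1) * (K a N).factorial := Nat.le_mul_of_pos_left _ (by omega)
  have := b.2
  unfold md
  omega

lemma sh_pos (R : ℕ) (M : LBA q a) (i j : Task q a N) : 0 < sh R M i j := by
  unfold sh
  split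
  · exact one_pos
  · split
    · exact prd_pos
    · exact Nat.mul_pos prd_pos bonus_pos
  · exact Nat.mul_pos prd_pos bonus_pos
  · exact prd_pos
  · exact prd_pos
  · rename_i s i b _
    have := lt_md (N := N) b i
    exact Nat.mul_pos (by omega) (co_pos i)
  · exact one_pos

lemma pt_le (R : ℕ) (i : Task q a N) : pt R i ≤ bonus R q a N := by
  cases i <;> simp [pt] <;> exact bonus_pos

lemma consistent (R : ℕ) (M : LBA q a) (x : Fin (N + 1) → Fin a) :
    (graph R M x).IsSchedule fun _ n => (n : ℝ) * bonus R q a N := by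
  rw [isSchedule_iff]
  refine ⟨fun i k _ => by positivity, ?_⟩
  intro i j hij k hk
  have h1 : (1 : ℝ) ≤ (sh R M i j : ℝ) := by exact_mod_cast sh_pos R M i j
  have h2 : ((pt R i : ℕ) : ℝ) ≤ bonus R q a N := by exact_mod_cast pt_le R i
  have h3 : (0 : ℝ) ≤ bonus R q a N := by positivity
  push_cast
  nlinarith

lemma gm_dvd (i j : Task q a N) : gm i j ∣ prd a N := by
  unfold gm
  split
  · split
    · exact Finset.dvd_prod_of_mem _ (mem_univ _)
    · exact one_dvd _
  · exact Finset.dvd_prod_of_mem _ (mem_univ _)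
  · exact one_dvd _

section schedules

variable {R : ℕ} {M : LBA q a} {x : Fin (N + 1) → Fin a} {t : Task q a N → ℕ → ℝ}

lemma to_clock (ht : (graph R M x).IsSchedule t) (i : Task q a N) {n : ℕ} (hn : 1 ≤ n) :
    t i n + pt R i ≤ t .clock (n + 1) := by
  have h1 : isArc M i .clock = true := by cases i <;> rfl
  have h2 : gm i (.clock : Task q a N) = 1 := by cases i <;> rfl
  have h3 : off x i .clock = 0 := by cases i <;> rfl
  have h4 : sh R M i (.clock : Task q a N) = 1 := by cases i <;> rfl
  have := ((isSchedule_iff R M x t).1 ht).2 i .clock h1 n hn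
  simpa [h2, h3, h4] using this

lemma from_clock (ht : (graph R M x).IsSchedule t) (i : Task q a N) {n : ℕ} (hn : 1 ≤ n) :
    t .clock n + 1 ≤ t i (n + sh R M .clock i) := by
  have h1 : isArc M .clock i = true := by cases i <;> rfl
  have h2 : gm (.clock : Task q a N) i = 1 := by cases i <;> rfl
  have h3 : off x .clock i = 0 := by cases i <;> rfl
  have := ((isSchedule_iff R M x t).1 ht).2 .clock i h1 n hn
  simpa [h2, h3, pt] using this

lemma prd_le_delay : prd a N ≤ delay R q a N := Nat.le_mul_of_pos_right _ bonus_pos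

lemma sh_clock_le (i : Task q a N) : sh R M .clock i ≤ delay R q a N := by
  have h := prd_le_delay (R := R) (q := q) (a := a) (N := N)
  have h' := prd_pos (a := a) (N := N)
  cases i with
  | clock => simp only [sh]; omega
  | acc => exact le_rfl
  | chk j => simp only [sh]; split <;> omega
  | st s i => exact le_rfl
  | rd s i b => exact le_rfl

lemma clock_mono (ht : (graph R M x).IsSchedule t) {n : ℕ} (hn : 1 ≤ n) (r : ℕ) :
    t .clock n + r ≤ t .clock (n + r) := by
  induction r with
  | zero => simp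
  | succ r ih =>
    have := to_clock ht .clock (n := n + r) (by omega)
    simp only [pt, Nat.cast_one] at this
    push_cast
    rw [← add_assoc n r 1]
    linarith

lemma clock_mono' (ht : (graph R M x).IsSchedule t) {n m : ℕ} (hn : 1 ≤ n) (h : n ≤ m) :
    t .clock n + (m - n : ℝ) ≤ t .clock m := by
  obtain ⟨r, rfl⟩ := Nat.exists_eq_add_of_le h
  have := clock_mono ht hn r
  push_cast
  linarith

lemma clock_le (ht : (graph R M x).IsSchedule t) (i : Task q a N) {n : ℕ}
    (hn : delay R q a N < n) : t .clock (n - delay R q a N) + 1 ≤ t i n := by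
  have h1 := sh_clock_le (R := R) (M := M) i
  have h2 := from_clock ht i (n := n - sh R M .clock i) (by omega)
  rw [Nat.sub_add_cancel (by omega)] at h2
  have h3 := clock_mono' ht (n := n - delay R q a N) (m := n - sh R M .clock i) (by omega) (by omega)
  have h4 : ((n - delay R q a N : ℕ) : ℝ) ≤ ((n - sh R M .clock i : ℕ) : ℝ) := by
    exact_mod_cast (by omega : n - delay R q a N ≤ n - sh R M .clock i)
  linarith

lemma superadd (ht : (graph R M x).IsEarliest t) {m : ℕ} (hm : prd a N ∣ m)
    (hd : delay R q a N < m) (i : Task q a N) {k : ℕ} (hk : 1 ≤ k) :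
    t i k + t .clock (m - delay R q a N) ≤ t i (k + m) := by
  have key : (graph R M x).IsSchedule fun i k => t i (k + m) - t .clock (m - delay R q a N) := by
    rw [isSchedule_iff]
    refine ⟨?_, ?_⟩
    · intro i k hk
      have h1 := clock_le ht.1 i (n := k + m) (by omega)
      have h2 := clock_mono' ht.1 (n := m - delay R q a N) (m := k + m - delay R q a N)
        (by omega) (by omega)
      have h4 : ((m - delay R q a N : ℕ) : ℝ) ≤ ((k + m - delay R q a N : ℕ) : ℝ) := by
        exact_mod_cast (by omega : m - delay R q a N ≤ k + m - delay R q a N)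
      linarith
    · intro i j hij k hk
      obtain ⟨c, hc⟩ := (gm_dvd i j).trans hm
      have := ((isSchedule_iff R M x t).1 ht.1).2 i j hij (k + c) (by omega)
      have e1 : gm i j * (k + c) + off x i j = gm i j * k + off x i j + m := by
        rw [hc]; ring
      have e2 : gm i j * k + off x i j + m + sh R M i j = gm i j * k + off x i j + sh R M i j + m := by
        ring
      rw [e1, e2] at this
      linarith
  have := ht.2 _ key i k hk
  linarith

end schedules

lemma tendsto_div_ratio (P c : ℕ) (hP : 0 < P) :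
    Tendsto (fun n : ℕ => ((n / P + c : ℕ) : ℝ) / n) atTop (𝓝 (1 / P)) := by
  have h1 : ∀ᶠ n : ℕ in atTop, ((n / P + c : ℕ) : ℝ) / n
      = 1 / P + ((c : ℝ) - ((n % P : ℕ) : ℝ) / P) / n := by
    filter_upwards [eventually_ge_atTop 1] with n hn
    have hn' : (0 : ℝ) < n := by exact_mod_cast hn
    have hP' : (0 : ℝ) < P := by exact_mod_cast hP
    have e : (n : ℝ) = P * ((n / P : ℕ) : ℝ) + ((n % P : ℕ) : ℝ) := by
      exact_mod_cast (Nat.div_add_mod n P).symm
    have e2 : ((n / P : ℕ) : ℝ) = (n - ((n % P : ℕ) : ℝ)) / P := by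
      rw [eq_div_iff hP'.ne']; linarith
    push_cast
    rw [e2]
    field_simp
    ring
  rw [tendsto_congr' h1]
  have h2 : Tendsto (fun n : ℕ => ((c : ℝ) - ((n % P : ℕ) : ℝ) / P) / n) atTop (𝓝 0) := by
    have hb : ∀ n : ℕ, |(c : ℝ) - ((n % P : ℕ) : ℝ) / P| ≤ c + 1 := by
      intro n
      have hP' : (0 : ℝ) < P := by exact_mod_cast hP
      have h3 : ((n % P : ℕ) : ℝ) ≤ P := by exact_mod_cast (Nat.mod_lt n hP).le
      have h4 : (0 : ℝ) ≤ ((n % P : ℕ) : ℝ) / P := by positivity
      have h5 : ((n % P : ℕ) : ℝ) / P ≤ 1 := by rw [div_le_one hP']; exact h3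
      have h6 : (0 : ℝ) ≤ c := by positivity
      rw [abs_le]; constructor <;> linarith
    have h3 : Tendsto (fun n : ℕ => ((c : ℝ) + 1) / n) atTop (𝓝 0) :=
      tendsto_const_div_atTop_nhds_zero_nat _
    refine squeeze_zero_norm (fun n => ?_) h3
    rw [Real.norm_eq_abs, abs_div, Nat.abs_cast]
    gcongr
    exact hb n
  simpa using (tendsto_const_nhds (x := (1 : ℝ) / P)).add h2

lemma tendsto_div_add_atTop (P c : ℕ) (hP : 0 < P) :
    Tendsto (fun n : ℕ => n / P + c) atTop atTop := by
  rw [tendsto_atTop]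
  intro b
  filter_upwards [eventually_ge_atTop (b * P)] with n hn
  have := (Nat.le_div_iff_mul_le hP).2 hn
  omega

/-- A nondecreasing function whose shifted restriction to the multiples of `P` is
superadditive and that grows at most linearly has a rate. -/
lemma rate_exists (A : ℕ → ℝ) (P B : ℕ) (hP : 0 < P) (C : ℝ) (hA0 : A 0 = 0)
    (hmono : Monotone A) (hup : ∀ n, A n ≤ C * n)
    (hsup : ∀ k l, 0 < k → 0 < l → A (k * P) + A (l * P) ≤ A ((k + l + B) * P)) :
    ∃ Λ : ℝ, Tendsto (fun n : ℕ => A n / n) atTop (𝓝 Λ) := by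
  have hA : ∀ n, 0 ≤ A n := fun n => by rw [← hA0]; exact hmono (Nat.zero_le n)
  have hC : 0 ≤ C := by have := (hA 1).trans (hup 1); simpa using this
  set v : ℕ → ℝ := fun k => A ((k - B) * P) with hv
  have hvm : Monotone v := fun k l hkl => hmono (Nat.mul_le_mul_right _ (by omega))
  have hv0 : ∀ k, k ≤ B → v k = 0 := fun k hk => by
    simp [hv, Nat.sub_eq_zero_of_le hk, hA0]
  have hsub : Subadditive fun k => - v k := by
    intro k l
    show - v (k + l) ≤ - v k + - v l
    have : v k + v l ≤ v (k + l) := by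
      rcases le_or_gt k B with hk | hk
      · rw [hv0 k hk, zero_add]; exact hvm (by omega)
      rcases le_or_gt l B with hl | hl
      · rw [hv0 l hl, add_zero]; exact hvm (by omega)
      have h1 := hsup (k - B) (l - B) (by omega) (by omega)
      have e : k - B + (l - B) + B = k + l - B := by omega
      rw [e] at h1
      exact h1
    linarith
  have hbdd : BddBelow (Set.range fun n : ℕ => (- v n) / (n : ℝ)) := by
    refine ⟨-(C * P), ?_⟩
    rintro r ⟨n, rfl⟩
    show -(C * P) ≤ - v n / n
    rcases Nat.eq_zero_or_pos n with hn | hn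
    · subst hn; simp; positivity
    have hn' : (0 : ℝ) < n := by exact_mod_cast hn
    rw [le_div_iff₀ hn']
    have h1 : v n ≤ C * (((n - B) * P : ℕ) : ℝ) := hup _
    have h2 : (((n - B) * P : ℕ) : ℝ) ≤ n * P := by
      exact_mod_cast Nat.mul_le_mul_right P (Nat.sub_le n B)
    have h3 := mul_le_mul_of_nonneg_left h2 hC
    linarith
  have hlim := hsub.tendsto_lim hbdd
  set L := hsub.lim
  have hv' : Tendsto (fun n : ℕ => v n / n) atTop (𝓝 (-L)) := by
    have := hlim.neg
    refine this.congr fun n => ?_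
    simp [neg_div]
  refine ⟨-L * (1 / P), ?_⟩
  have hc : ∀ c : ℕ, Tendsto (fun n : ℕ => v (n / P + (B + c)) / n) atTop
      (𝓝 (-L * (1 / P))) := by
    intro c
    have h1 := hv'.comp (tendsto_div_add_atTop P (B + c) hP)
    have h2 := h1.mul (tendsto_div_ratio P (B + c) hP)
    refine h2.congr' ?_
    filter_upwards [eventually_ge_atTop P] with n hn
    have h3 : 0 < n / P + (B + c) := by
      have := Nat.div_pos hn hP
      omega
    have h3' : ((n / P + (B + c) : ℕ) : ℝ) ≠ 0 := by exact_mod_cast h3.ne'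
    simp only [Function.comp]
    field_simp
  refine tendsto_of_tendsto_of_tendsto_of_le_of_le (hc 0) (hc 1) ?_ ?_
  · intro n
    show v (n / P + (B + 0)) / n ≤ A n / n
    have : v (n / P + (B + 0)) ≤ A n := by
      refine hmono ?_
      have e : n / P + (B + 0) - B = n / P := by generalize n / P = z; omega
      rw [e]
      exact Nat.div_mul_le_self n P
    gcongr
  · intro n
    show A n / n ≤ v (n / P + (B + 1)) / n
    have : A n ≤ v (n / P + (B + 1)) := by
      refine hmono ?_
      have e : n / P + (B + 1) - B = n / P + 1 := by generalize n / P = z; omega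
      rw [e]
      have := Nat.div_add_mod n P
      have h2 := Nat.mod_lt n hP
      nlinarith
    gcongr

section schedules

variable {R : ℕ} {M : LBA q a} {x : Fin (N + 1) → Fin a} {t : Task q a N → ℕ → ℝ}

lemma rate (ht : (graph R M x).IsEarliest t) :
    ∃ Λ : ℝ, ∀ i, Tendsto (fun n : ℕ => t i n / n) atTop (𝓝 Λ) := by
  have hS := ht.1
  have hB := bonus_pos (R := R) (q := q) (a := a) (N := N)
  have hP := prd_pos (a := a) (N := N)
  set A : ℕ → ℝ := fun n => if n = 0 then 0 else t .clock n with hAdef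
  have hA1 : ∀ n, 0 < n → A n = t .clock n := fun n hn => by simp [hAdef, hn.ne']
  have hmono : Monotone A := by
    intro n m hnm
    rcases Nat.eq_zero_or_pos n with hn | hn
    · subst hn
      rcases Nat.eq_zero_or_pos m with hm | hm
      · subst hm; exact le_rfl
      · rw [hA1 m hm]; simpa [hAdef] using hS.1 .clock m hm
    · rw [hA1 n hn, hA1 m (by omega)]
      have := clock_mono' hS (n := n) (m := m) hn hnm
      have h4 : (n : ℝ) ≤ m := by exact_mod_cast hnm
      linarith
  have hup : ∀ n, A n ≤ (bonus R q a N : ℝ) * n := by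
    intro n
    rcases Nat.eq_zero_or_pos n with hn | hn
    · subst hn; simp [hAdef]
    · rw [hA1 n hn]
      have := ht.2 _ (consistent R M x) .clock n hn
      linarith [this, mul_comm (n : ℝ) (bonus R q a N : ℝ)]
  have hsup : ∀ k l, 0 < k → 0 < l →
      A (k * prd a N) + A (l * prd a N) ≤ A ((k + l + bonus R q a N) * prd a N) := by
    intro k l hk hl
    have hk' : 0 < k * prd a N := Nat.mul_pos hk hP
    have hl' : 0 < l * prd a N := Nat.mul_pos hl hP
    rw [hA1 _ hk', hA1 _ hl', hA1 _ (Nat.mul_pos (by omega) hP)]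
    have hd : delay R q a N < (l + bonus R q a N) * prd a N := by
      unfold delay; nlinarith
    have := superadd ht (m := (l + bonus R q a N) * prd a N) (dvd_mul_left _ _) hd .clock
      (k := k * prd a N) hk'
    have e1 : (l + bonus R q a N) * prd a N - delay R q a N = l * prd a N := by
      unfold delay
      rw [add_mul, mul_comm (prd a N)]
      omega
    have e2 : k * prd a N + (l + bonus R q a N) * prd a N = (k + l + bonus R q a N) * prd a N := by
      ring
    rw [e1, e2] at this
    exact this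
  obtain ⟨Λ, hΛ⟩ := rate_exists A (prd a N) (bonus R q a N) hP _ (by simp [hAdef]) hmono hup hsup
  refine ⟨Λ, fun i => ?_⟩
  set D := delay R q a N with hD
  have hup1 : Tendsto (fun n : ℕ => A (n + 1) / n) atTop (𝓝 Λ) := by
    have h1 := (tendsto_add_atTop_iff_nat 1).2 hΛ
    have h2 : Tendsto (fun n : ℕ => ((n + 1 : ℕ) : ℝ) / n) atTop (𝓝 1) := by
      have := tendsto_div_ratio 1 1 one_pos
      simpa using this
    have h3 := h1.mul h2
    rw [mul_one] at h3
    refine h3.congr' ?_
    filter_upwards [eventually_ge_atTop 1] with n hn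
    have : ((n + 1 : ℕ) : ℝ) ≠ 0 := by positivity
    field_simp
  have hlo1 : Tendsto (fun n : ℕ => A (n - D) / n) atTop (𝓝 Λ) := by
    rw [← tendsto_add_atTop_iff_nat D]
    have h2 : Tendsto (fun n : ℕ => (n : ℝ) / ((n + D : ℕ) : ℝ)) atTop (𝓝 1) := by
      have := (tendsto_div_ratio 1 D one_pos).inv₀ (by simp)
      simpa using this
    have h3 := hΛ.mul h2
    rw [mul_one] at h3
    refine h3.congr' ?_
    filter_upwards [eventually_ge_atTop 1] with n hn
    have h5 : (n : ℝ) ≠ 0 := by positivity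
    have h6 : ((n + D : ℕ) : ℝ) ≠ 0 := by positivity
    rw [Nat.add_sub_cancel]
    field_simp
  refine tendsto_of_tendsto_of_tendsto_of_le_of_le' hlo1 hup1 ?_ ?_
  · filter_upwards [eventually_gt_atTop D] with n hn
    have h1 := clock_le hS i (n := n) hn
    rw [hA1 _ (by omega)]
    gcongr
    linarith
  · filter_upwards [eventually_ge_atTop 1] with n hn
    have h1 := to_clock hS i (n := n) hn
    rw [hA1 _ (by omega)]
    gcongr
    have : (0 : ℝ) ≤ (pt R i : ℕ) := by positivity
    linarith

end schedules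

/-! ## The encoding -/

lemma md_coprime {i j : Fin (N + 1)} (hij : i ≠ j) : (md a N i).Coprime (md a N j) := by
  wlog h : (i : ℕ) < j generalizing i j
  · have h' : (j : ℕ) < i := by
      have : (i : ℕ) ≠ j := fun e => hij (Fin.ext e)
      omega
    exact (this hij.symm h').symm
  unfold md
  apply Nat.coprime_mul_succ
  apply Nat.dvd_factorial
  · omega
  · have := j.2
    unfold K
    omega

lemma md_mul_co (j : Fin (N + 1)) : md a N j * co a N j = prd a N :=
  Finset.mul_prod_erase univ (md a N) (mem_univ j)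

lemma md_dvd_co {i j : Fin (N + 1)} (hij : j ≠ i) : md a N j ∣ co a N i :=
  Finset.dvd_prod_of_mem _ (Finset.mem_erase.2 ⟨hij, mem_univ _⟩)

lemma md_coprime_co (j : Fin (N + 1)) : (md a N j).Coprime (co a N j) :=
  Nat.Coprime.prod_right fun _ hi => md_coprime (Finset.ne_of_mem_erase hi).symm

lemma code_modEq (τ : Fin (N + 1) → Fin a) (j : Fin (N + 1)) :
    code τ ≡ (τ j : ℕ) * co a N j [MOD md a N j] := by
  unfold code
  rw [← Finset.add_sum_erase univ _ (mem_univ j)]
  have h : (∑ i ∈ univ.erase j, (τ i : ℕ) * co a N i) ≡ 0 [MOD md a N j] := by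
    rw [Nat.modEq_zero_iff_dvd]
    exact Finset.dvd_sum fun i hi =>
      Dvd.dvd.mul_left (md_dvd_co (Finset.ne_of_mem_erase hi).symm) _
  simpa using Nat.ModEq.add_left ((τ j : ℕ) * co a N j) h

lemma md_dvd_prd (j : Fin (N + 1)) : md a N j ∣ prd a N :=
  Finset.dvd_prod_of_mem _ (mem_univ _)

lemma decode {τ : Fin (N + 1) → Fin a} {n : ℕ} {j : Fin (N + 1)} {b : Fin a}
    (h1 : n ≡ code τ [MOD prd a N]) (h2 : n ≡ (b : ℕ) * co a N j [MOD md a N j]) : τ j = b := by
  have h3 : (τ j : ℕ) * co a N j ≡ (b : ℕ) * co a N j [MOD md a N j] :=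
    (code_modEq τ j).symm.trans ((h1.of_dvd (md_dvd_prd j)).symm.trans h2)
  have h4 : (τ j : ℕ) ≡ b [MOD md a N j] :=
    Nat.ModEq.cancel_right_of_coprime (md_coprime_co j) h3
  exact Fin.ext (Nat.ModEq.eq_of_lt_of_lt h4 (lt_md _ _) (lt_md _ _))

lemma code_update (τ : Fin (N + 1) → Fin a) (j : Fin (N + 1)) (b : Fin a) :
    code τ + (md a N j + b - τ j) * co a N j = code (Function.update τ j b) + prd a N := by
  unfold code
  rw [← Finset.add_sum_erase univ _ (mem_univ j),
    ← Finset.add_sum_erase univ (fun i => ((Function.update τ j b i : Fin a) : ℕ) * co a N i)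
      (mem_univ j), ← md_mul_co j]
  have h : (∑ i ∈ univ.erase j, ((Function.update τ j b i : Fin a) : ℕ) * co a N i)
      = ∑ i ∈ univ.erase j, (τ i : ℕ) * co a N i :=
    Finset.sum_congr rfl fun i hi => by
      rw [Function.update_of_ne (Finset.ne_of_mem_erase hi)]
  rw [h, Function.update_self]
  have h2 := lt_md (N := N) (τ j) j
  obtain ⟨d, hd⟩ : ∃ d, md a N j = τ j + d := ⟨md a N j - τ j, by omega⟩
  have e : md a N j + b - τ j = d + b := by omega
  rw [e, hd]
  ring

lemma modEq_prd {x : Fin (N + 1) → Fin a} {n : ℕ}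
    (h : ∀ j, n ≡ (x j : ℕ) * co a N j [MOD md a N j]) : n ≡ code x [MOD prd a N] := by
  have h1 : ∀ j, n ≡ code x [MOD md a N j] := fun j => (h j).trans (code_modEq x j).symm
  rw [Nat.modEq_iff_dvd]
  have : ((prd a N : ℕ) : ℤ) = ∏ j, ((md a N j : ℕ) : ℤ) := by simp [prd]
  rw [this]
  refine Finset.prod_dvd_of_coprime ?_ ?_
  · intro i _ j _ hij
    exact Nat.isCoprime_iff_coprime.2 (md_coprime hij)
  · intro j _
    exact (Nat.modEq_iff_dvd).1 (h1 j)

/-! ## Non-accepting case -/

/-- The configuration after `m` steps. -/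
def LBA.run (M : LBA q a) (x : Fin (N + 1) → Fin a) (m : ℕ) : Config q a N :=
  M.step^[m] (M.start, 0, x)

lemma LBA.run_succ (M : LBA q a) (x : Fin (N + 1) → Fin a) (m : ℕ) :
    M.run x (m + 1) = M.step (M.run x m) := by
  simp [LBA.run, Function.iterate_succ_apply']

/-- Occurrences that can be reached from the clock by a faithful simulation. -/
def Valid (M : LBA q a) (x : Fin (N + 1) → Fin a) : Task q a N → ℕ → Prop
  | .clock, _ => True
  | .acc, _ => False
  | .chk j, n => ∀ i : Fin (N + 1), (i : ℕ) < j → n ≡ (x i : ℕ) * co a N i [MOD md a N i]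
  | .st s i, n => ∃ m τ, M.run x m = (s, i, τ) ∧ n ≡ code τ [MOD prd a N]
  | .rd s i b, n => ∃ m τ, M.run x m = (s, i, τ) ∧ τ i = b ∧ n ≡ code τ [MOD prd a N]

lemma two_le_prd : 2 ≤ prd a N := by
  have h1 : md a N 0 ≤ prd a N := Nat.le_of_dvd prd_pos (md_dvd_prd 0)
  have h2 : 0 < (K a N).factorial := Nat.factorial_pos _
  have h3 : 0 < ((0 : Fin (N + 1)) + 1 : ℕ) * (K a N).factorial := Nat.mul_pos (by simp) h2
  have h4 : 2 ≤ md a N 0 := by unfold md; omega
  omega

lemma add_prd_modEq (n : ℕ) {m : ℕ} (hm : m ∣ prd a N) : n + prd a N ≡ n [MOD m] := by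
  have : prd a N ≡ 0 [MOD m] := (Nat.modEq_zero_iff_dvd).2 hm
  simpa using Nat.ModEq.add_left n this

lemma valid_arc {R : ℕ} {M : LBA q a} {x : Fin (N + 1) → Fin a} (hno : ¬ M.Accepts x)
    {i j : Task q a N} (hij : isArc M i j = true) {n : ℕ}
    (hmod : n % gm i j = off x i j) (hv : Valid M x i n) :
    Valid M x j (n + sh R M i j) ∨ bonus R q a N + 1 ≤ sh R M i j := by
  have hD : bonus R q a N + 1 ≤ delay R q a N := by
    have h1 := two_le_prd (a := a) (N := N)
    have h2 := bonus_pos (R := R) (q := q) (a := a) (N := N)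
    unfold delay
    nlinarith
  cases i with
  | clock =>
    cases j with
    | clock => exact Or.inl trivial
    | acc => exact Or.inr hD
    | chk j =>
      by_cases hj : (j : ℕ) = 0
      · left
        intro i hi
        omega
      · right
        simp [sh, hj, hD]
    | st s i => exact Or.inr hD
    | rd s i b => exact Or.inr hD
  | acc => exact absurd hv id
  | chk j0 =>
    cases j with
    | clock => exact Or.inl trivial
    | acc => simp [isArc] at hij
    | chk j' =>
      left
      simp only [isArc, decide_eq_true_eq] at hij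
      have hj : (j0 : ℕ) < N + 1 := by have := j'.2; omega
      simp only [gm, off, hj, dite_true] at hmod
      intro i hi
      show n + prd a N ≡ _ [MOD md a N i]
      refine (add_prd_modEq n (md_dvd_prd i)).trans ?_
      rcases (show (i : ℕ) < j0 ∨ (i : ℕ) = j0 by omega) with h | h
      · exact hv i h
      · have : i = ⟨j0, hj⟩ := Fin.ext h
        rw [this]
        exact hmod
    | st s i =>
      left
      simp only [isArc, decide_eq_true_eq] at hij
      obtain ⟨h1, rfl, rfl⟩ := hij
      refine ⟨0, x, rfl, ?_⟩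
      show n + prd a N ≡ _ [MOD prd a N]
      refine (add_prd_modEq n dvd_rfl).trans (modEq_prd fun i => hv i ?_)
      have := i.2
      omega
    | rd s i b => simp [isArc] at hij
  | st s i =>
    cases j with
    | clock => exact Or.inl trivial
    | acc =>
      exfalso
      simp only [isArc, decide_eq_true_eq] at hij
      obtain ⟨m, τ, h1, -⟩ := hv
      exact hno ⟨m, by show (M.run x m).1 = _; rw [h1, hij]⟩
    | chk j => simp [isArc] at hij
    | st s i => simp [isArc] at hij
    | rd s' i' b =>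
      left
      simp only [isArc, decide_eq_true_eq] at hij
      obtain ⟨rfl, rfl⟩ := hij
      obtain ⟨m, τ, h1, h2⟩ := hv
      simp only [gm, off] at hmod
      refine ⟨m, τ, h1, decode h2 hmod, ?_⟩
      exact (add_prd_modEq n dvd_rfl).trans h2
  | rd s i b =>
    cases j with
    | clock => exact Or.inl trivial
    | acc => simp [isArc] at hij
    | chk j => simp [isArc] at hij
    | st s' i' =>
      left
      simp only [isArc, decide_eq_true_eq] at hij
      obtain ⟨rfl, rfl⟩ := hij
      obtain ⟨m, τ, h1, h2, h3⟩ := hv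
      refine ⟨m + 1, Function.update τ i (M.δ s b).2.1, ?_, ?_⟩
      · rw [LBA.run_succ, h1]
        simp only [LBA.step, h2]
      · show n + (md a N i + (M.δ s b).2.1 - b) * co a N i ≡ _ [MOD prd a N]
        have h4 := code_update τ i (M.δ s b).2.1
        rw [h2] at h4
        refine (h3.add_right _).trans ?_
        rw [h4]
        exact add_prd_modEq _ dvd_rfl
    | rd s i b => simp [isArc] at hij

open Classical in
/-- The schedule that witnesses frequency one when `M` does not accept. -/
noncomputable def slow (R : ℕ) (M : LBA q a) (x : Fin (N + 1) → Fin a) : Task q a N → ℕ → ℝ :=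
  fun i n => n + if Valid M x i n then (bonus R q a N : ℝ) else 0

lemma slow_schedule {R : ℕ} {M : LBA q a} {x : Fin (N + 1) → Fin a} (hno : ¬ M.Accepts x) :
    (graph R M x).IsSchedule (slow R M x) := by
  rw [isSchedule_iff]
  refine ⟨fun i k _ => by unfold slow; positivity, ?_⟩
  intro i j hij k hk
  have hoff : off x i j < gm i j := by
    unfold off gm
    split
    · split
      · exact Nat.mod_lt _ (md_pos _)
      · exact one_pos
    · exact Nat.mod_lt _ (md_pos _)
    · exact one_pos
  have hmod : (gm i j * k + off x i j) % gm i j = off x i j := by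
    rw [Nat.mul_add_mod, Nat.mod_eq_of_lt hoff]
  generalize gm i j * k + off x i j = n at hmod
  have hs : (1 : ℝ) ≤ sh R M i j := by exact_mod_cast sh_pos R M i j
  have hb : (0 : ℝ) ≤ bonus R q a N := by positivity
  unfold slow
  by_cases hj : Valid M x j (n + sh R M i j)
  · rw [if_pos hj]
    push_cast
    by_cases hi : i = .acc
    · subst hi
      have : ¬ Valid M x (.acc : Task q a N) n := id
      rw [if_neg this]
      simp only [pt]
      linarith
    · have hp : pt R i = 1 := by
        cases i <;> first | rfl | exact absurd rfl hi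
      rw [hp]
      push_cast
      split <;> linarith
  · rw [if_neg hj]
    by_cases hv : Valid M x i n
    · rcases valid_arc hno hij hmod hv with h | h
      · exact absurd h hj
      · have hp : pt R i = 1 := by
          cases i <;> first | rfl | exact absurd hv id
        rw [if_pos hv, hp]
        have : (bonus R q a N : ℝ) + 1 ≤ sh R M i j := by exact_mod_cast h
        push_cast
        linarith
    · rw [if_neg hv]
      have hp : pt R i = 1 := by
        cases i with
        | acc =>
          exfalso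
          cases j with
          | clock => exact hj trivial
          | acc => simp [isArc] at hij
          | chk j => simp [isArc] at hij
          | st s i => simp [isArc] at hij
          | rd s i b => simp [isArc] at hij
        | clock => rfl
        | chk j => rfl
        | st s i => rfl
        | rd s i b => rfl
      rw [hp]
      push_cast
      linarith

/-! ## Accepting case -/

/-- If `M` accepts then it does so within the number of configurations. -/
lemma accepts_bound {M : LBA q a} {x : Fin (N + 1) → Fin a} (h : M.Accepts x) :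
    ∃ m, m ≤ q * (N + 1) * a ^ (N + 1) ∧ (M.run x m).1 = M.accept := by
  classical
  have h' : ∃ m, (M.run x m).1 = M.accept := h
  refine ⟨Nat.find h', ?_, Nat.find_spec h'⟩
  by_contra hlt
  push Not at hlt
  set m := Nat.find h' with hm
  have hinj : Function.Injective fun i : Fin (m + 1) => M.run x i := by
    intro i j hij
    by_contra hne
    wlog hlt' : (i : ℕ) < j generalizing i j
    · refine this hij.symm (Ne.symm hne) ?_
      have : (i : ℕ) ≠ j := fun e => hne (Fin.ext e)
      omega
    have hij' : M.run x i = M.run x j := hij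
    have key : ∀ r, M.run x (i + r) = M.run x (j + r) := by
      intro r
      induction r with
      | zero => exact hij'
      | succ r ih => rw [← add_assoc, ← add_assoc, LBA.run_succ, LBA.run_succ, ih]
    have h1 := key (m - j)
    have hj := j.2
    rw [show (j : ℕ) + (m - j) = m by omega] at h1
    have h2 : (M.run x (i + (m - j))).1 = M.accept := by
      rw [h1]; exact Nat.find_spec h'
    have h3 := Nat.find_min' h' h2
    omega
  have hcard := Fintype.card_le_of_injective _ hinj
  simp only [Fintype.card_fin, Fintype.card_prod, Fintype.card_pi, Finset.prod_const,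
    Finset.card_univ] at hcard
  rw [← mul_assoc] at hcard
  omega

section schedules

variable {R : ℕ} {M : LBA q a} {x : Fin (N + 1) → Fin a} {t : Task q a N → ℕ → ℝ}

lemma use_arc (ht : (graph R M x).IsSchedule t) {i j : Task q a N} (hij : isArc M i j = true)
    {n : ℕ} (hn : gm i j ≤ n) (hmod : n % gm i j = off x i j) :
    t i n + pt R i ≤ t j (n + sh R M i j) := by
  have h := ((isSchedule_iff R M x t).1 ht).2 i j hij (n / gm i j)
    (Nat.div_pos hn (gm_pos i j))
  have e : gm i j * (n / gm i j) + off x i j = n := by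
    rw [← hmod]; exact Nat.div_add_mod n _
  rwa [e] at h

lemma md_le_prd (j : Fin (N + 1)) : md a N j ≤ prd a N := Nat.le_of_dvd prd_pos (md_dvd_prd j)

lemma chk_lower (ht : (graph R M x).IsSchedule t) {n : ℕ} (hn : prd a N ≤ n)
    (hc : n ≡ code x [MOD prd a N]) : ∀ j : ℕ, ∀ hj : j < N + 2,
    t .clock n ≤ t (.chk ⟨j, hj⟩) (n + (j + 1) * prd a N) := by
  have hP := prd_pos (a := a) (N := N)
  intro j
  induction j with
  | zero =>
    intro hj
    have h := from_clock ht (.chk ⟨0, hj⟩) (n := n) (by omega)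
    have e : sh R M (.clock : Task q a N) (.chk ⟨0, hj⟩) = prd a N := by simp [sh]
    rw [e] at h
    simp only [zero_add, one_mul]
    linarith
  | succ j ih =>
    intro hj
    have h1 := ih (by omega)
    have hj' : j < N + 1 := by omega
    have eg : gm (.chk ⟨j, by omega⟩ : Task q a N) (.chk ⟨j + 1, hj⟩) = md a N ⟨j, hj'⟩ := by
      simp [gm, hj']
    have eo : off x (.chk ⟨j, by omega⟩ : Task q a N) (.chk ⟨j + 1, hj⟩) =
        ((x ⟨j, hj'⟩ : ℕ) * co a N ⟨j, hj'⟩) % md a N ⟨j, hj'⟩ := by
      simp [off, hj']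
    have h2 := use_arc ht (i := .chk ⟨j, by omega⟩) (j := .chk ⟨j + 1, hj⟩)
      (by simp [isArc]) (n := n + (j + 1) * prd a N)
      (by rw [eg]; have := md_le_prd (a := a) ⟨j, hj'⟩; omega)
      (by
        rw [eg, eo]
        have h3 : n + (j + 1) * prd a N ≡ n [MOD md a N ⟨j, hj'⟩] := by
          have : (j + 1) * prd a N ≡ 0 [MOD md a N ⟨j, hj'⟩] :=
            (Nat.modEq_zero_iff_dvd).2 (Dvd.dvd.mul_left (md_dvd_prd _) _)
          simpa using Nat.ModEq.add_left n this
        exact h3.trans ((hc.of_dvd (md_dvd_prd _)).trans (code_modEq x _)))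
    have es : sh R M (.chk ⟨j, by omega⟩ : Task q a N) (.chk ⟨j + 1, hj⟩) = prd a N := rfl
    rw [es] at h2
    have ep : pt R (.chk ⟨j, by omega⟩ : Task q a N) = 1 := rfl
    rw [ep] at h2
    have e : n + (j + 1) * prd a N + prd a N = n + (j + 1 + 1) * prd a N := by ring
    rw [e] at h2
    push_cast at h2
    linarith

lemma start_lower (ht : (graph R M x).IsSchedule t) {n : ℕ} (hn : prd a N ≤ n)
    (hc : n ≡ code x [MOD prd a N]) :
    t .clock n ≤ t (.st M.start 0) (n + (N + 3) * prd a N) := by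
  have h1 := chk_lower ht hn hc (N + 1) (by omega)
  have h2 := use_arc ht (i := .chk ⟨N + 1, by omega⟩) (j := .st M.start 0)
    (by simp [isArc]) (n := n + (N + 1 + 1) * prd a N)
    (by
      have : gm (.chk ⟨N + 1, by omega⟩ : Task q a N) (.st M.start 0) = 1 := rfl
      have hP := prd_pos (a := a) (N := N)
      rw [this]; omega)
    (by
      have e1 : gm (.chk ⟨N + 1, by omega⟩ : Task q a N) (.st M.start 0) = 1 := rfl
      have e2 : off x (.chk ⟨N + 1, by omega⟩ : Task q a N) (.st M.start 0) = 0 := rfl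
      rw [e1, e2, Nat.mod_one])
  have es : sh R M (.chk ⟨N + 1, by omega⟩ : Task q a N) (.st M.start 0) = prd a N := rfl
  have ep : pt R (.chk ⟨N + 1, by omega⟩ : Task q a N) = 1 := rfl
  rw [es, ep] at h2
  have e : n + (N + 1 + 1) * prd a N + prd a N = n + (N + 3) * prd a N := by ring
  rw [e] at h2
  push_cast at h2
  linarith

lemma run_lower (ht : (graph R M x).IsSchedule t) {n₀ : ℕ} (hn : prd a N ≤ n₀)
    (hc : n₀ ≡ code x [MOD prd a N]) : ∀ m : ℕ, ∃ n, n ≡ code (M.run x m).2.2 [MOD prd a N] ∧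
    n₀ ≤ n ∧ n ≤ n₀ + 3 * prd a N * m ∧
    t (.st M.start 0) n₀ ≤ t (.st (M.run x m).1 (M.run x m).2.1) n := by
  intro m
  induction m with
  | zero => exact ⟨n₀, hc, le_rfl, by omega, le_rfl⟩
  | succ m ih =>
    obtain ⟨n, h1, h2, h3, h4⟩ := ih
    rw [LBA.run_succ]
    generalize M.run x m = c at h1 h4
    obtain ⟨s, i, τ⟩ := c
    simp only at h1 h4
    have hP := prd_pos (a := a) (N := N)
    have a1 := use_arc ht (i := .st s i) (j := .rd s i (τ i)) (by simp [isArc]) (n := n)
      (by
        have : gm (.st s i : Task q a N) (.rd s i (τ i)) = md a N i := rfl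
        rw [this]; have := md_le_prd (a := a) i; omega)
      ((h1.of_dvd (md_dvd_prd i)).trans (code_modEq τ i))
    have es1 : sh R M (.st s i : Task q a N) (.rd s i (τ i)) = prd a N := rfl
    have ep1 : pt R (.st s i : Task q a N) = 1 := rfl
    rw [es1, ep1] at a1
    set s' := (M.δ s (τ i)).1
    set b' := (M.δ s (τ i)).2.1 with hb'
    set i' := move (M.δ s (τ i)).2.2 i
    have a2 := use_arc ht (i := .rd s i (τ i)) (j := .st s' i') (by simp [isArc, s', i'])
      (n := n + prd a N)
      (by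
        have : gm (.rd s i (τ i) : Task q a N) (.st s' i') = 1 := rfl
        rw [this]; omega)
      (by
        have e1 : gm (.rd s i (τ i) : Task q a N) (.st s' i') = 1 := rfl
        have e2 : off x (.rd s i (τ i) : Task q a N) (.st s' i') = 0 := rfl
        rw [e1, e2, Nat.mod_one])
    have es2 : sh R M (.rd s i (τ i) : Task q a N) (.st s' i')
        = (md a N i + b' - τ i) * co a N i := rfl
    have ep2 : pt R (.rd s i (τ i) : Task q a N) = 1 := rfl
    rw [es2, ep2] at a2
    have h5 : (md a N i + b' - τ i) * co a N i ≤ 2 * prd a N := by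
      rw [← md_mul_co i]
      have := lt_md (N := N) b' i
      calc (md a N i + b' - τ i) * co a N i ≤ (2 * md a N i) * co a N i :=
            Nat.mul_le_mul_right _ (by omega)
        _ = 2 * (md a N i * co a N i) := by ring
    refine ⟨n + prd a N + (md a N i + b' - τ i) * co a N i, ?_, by omega, ?_, ?_⟩
    · have h6 := code_update τ i b'
      show n + prd a N + (md a N i + b' - τ i) * co a N i
        ≡ code (Function.update τ i b') [MOD prd a N]
      have h7 : n + prd a N ≡ code τ [MOD prd a N] := (add_prd_modEq n dvd_rfl).trans h1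
      refine (h7.add_right _).trans ?_
      rw [h6]
      exact add_prd_modEq _ dvd_rfl
    · have : 3 * prd a N * (m + 1) = 3 * prd a N * m + 3 * prd a N := by ring
      omega
    · show t (.st M.start 0) n₀ ≤ t (.st s' i') _
      push_cast at a1 a2
      linarith

lemma gain (ht : (graph R M x).IsSchedule t) (hacc : M.Accepts x) {n : ℕ} (hn : prd a N ≤ n)
    (hc : n ≡ code x [MOD prd a N]) :
    t .clock n + (2 ^ R + 1) * ((prd a N * base q a N : ℕ) : ℝ) ≤
      t .clock (n + prd a N * base q a N) := by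
  obtain ⟨m, hm, hm2⟩ := accepts_bound hacc
  have hP := prd_pos (a := a) (N := N)
  have h1 := start_lower ht hn hc
  have hc' : n + (N + 3) * prd a N ≡ code x [MOD prd a N] := by
    have : (N + 3) * prd a N ≡ 0 [MOD prd a N] :=
      (Nat.modEq_zero_iff_dvd).2 (dvd_mul_left _ _)
    exact (Nat.ModEq.add_left n this : n + (N + 3) * prd a N ≡ n + 0 [MOD prd a N]).trans hc
  obtain ⟨n', -, h3, h4, h5⟩ := run_lower ht (n₀ := n + (N + 3) * prd a N) (by omega) hc' m
  rw [hm2] at h5
  have a1 := use_arc ht (i := .st M.accept (M.run x m).2.1) (j := .acc) (by simp [isArc])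
    (n := n')
    (by
      have : gm (.st M.accept (M.run x m).2.1 : Task q a N) .acc = 1 := rfl
      rw [this]; omega)
    (by
      have e1 : gm (.st M.accept (M.run x m).2.1 : Task q a N) .acc = 1 := rfl
      have e2 : off x (.st M.accept (M.run x m).2.1 : Task q a N) .acc = 0 := rfl
      rw [e1, e2, Nat.mod_one])
  have es1 : sh R M (.st M.accept (M.run x m).2.1 : Task q a N) .acc = 1 := rfl
  have ep1 : pt R (.st M.accept (M.run x m).2.1 : Task q a N) = 1 := rfl
  rw [es1, ep1] at a1
  have a2 := to_clock ht .acc (n := n' + 1) (by omega)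
  have ep2 : pt R (.acc : Task q a N) = bonus R q a N := rfl
  rw [ep2] at a2
  have hS : n' + 1 + 1 + 2 ≤ n + base q a N := by
    have : 3 * prd a N * m ≤ 3 * prd a N * (q * (N + 1) * a ^ (N + 1)) :=
      Nat.mul_le_mul_left _ hm
    have e : base q a N = 3 * prd a N * (q * (N + 1) * a ^ (N + 1))
        + 3 * ((N + 3) * prd a N) + 4 := by unfold base; ring
    omega
  have hD : base q a N ≤ prd a N * base q a N := Nat.le_mul_of_pos_left _ hP
  have a3 := clock_mono' ht (n := n' + 1 + 1) (m := n + prd a N * base q a N) (by omega)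
    (by omega)
  have h6 : ((n' + 1 + 1 + 2 : ℕ) : ℝ) ≤ ((n + base q a N : ℕ) : ℝ) := by exact_mod_cast hS
  have h7 : ((bonus R q a N : ℕ) : ℝ)
      = 2 ^ R * ((prd a N * base q a N : ℕ) : ℝ) + (base q a N : ℝ) := by
    unfold bonus; push_cast; ring
  rw [h7] at a2
  push_cast at *
  linarith

end schedules

/-! ## Rates -/

section schedules

variable {R : ℕ} {M : LBA q a} {x : Fin (N + 1) → Fin a} {t : Task q a N → ℕ → ℝ}

lemma clock_ge (ht : (graph R M x).IsSchedule t) {n : ℕ} (hn : 1 ≤ n) :
    (n : ℝ) - 1 ≤ t .clock n := by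
  have h1 := clock_mono' ht (n := 1) (m := n) le_rfl hn
  have h2 := ht.1 .clock 1 le_rfl
  push_cast at h1
  linarith

lemma rate_ge_one (ht : (graph R M x).IsSchedule t) {Λ : ℝ}
    (hΛ : Tendsto (fun n : ℕ => t .clock n / n) atTop (𝓝 Λ)) : 1 ≤ Λ := by
  have h1 : Tendsto (fun n : ℕ => 1 - (1 : ℝ) / n) atTop (𝓝 (1 - 0)) :=
    tendsto_const_nhds.sub tendsto_one_div_atTop_nhds_zero_nat
  rw [sub_zero] at h1
  refine le_of_tendsto_of_tendsto h1 hΛ ?_
  filter_upwards [eventually_ge_atTop 1] with n hn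
  have hn' : (0 : ℝ) < n := by exact_mod_cast hn
  have := clock_ge ht hn
  rw [le_div_iff₀ hn', sub_mul, one_mul, div_mul_cancel₀ _ hn'.ne']
  exact this

lemma slow_rate (ht : (graph R M x).IsEarliest t) (hno : ¬ M.Accepts x) {Λ : ℝ}
    (hΛ : Tendsto (fun n : ℕ => t .clock n / n) atTop (𝓝 Λ)) : Λ = 1 := by
  refine le_antisymm ?_ (rate_ge_one ht.1 hΛ)
  have h1 : Tendsto (fun n : ℕ => 1 + (bonus R q a N : ℝ) / n) atTop (𝓝 (1 + 0)) :=
    tendsto_const_nhds.add (tendsto_const_div_atTop_nhds_zero_nat _)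
  rw [add_zero] at h1
  refine le_of_tendsto_of_tendsto hΛ h1 ?_
  filter_upwards [eventually_ge_atTop 1] with n hn
  have hn' : (0 : ℝ) < n := by exact_mod_cast hn
  have h2 := ht.2 _ (slow_schedule hno) .clock n hn
  have h3 : Valid M x .clock n := trivial
  simp only [slow, if_pos h3] at h2
  rw [div_le_iff₀ hn', add_mul, one_mul, div_mul_cancel₀ _ hn'.ne']
  exact h2

lemma fast_rate (ht : (graph R M x).IsSchedule t) (hacc : M.Accepts x) {Λ : ℝ}
    (hΛ : Tendsto (fun n : ℕ => t .clock n / n) atTop (𝓝 Λ)) : 2 ^ R < Λ := by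
  have hP := prd_pos (a := a) (N := N)
  set D := prd a N * base q a N with hD
  have hDpos : 0 < D := Nat.mul_pos hP base_pos
  set n₀ := code x + prd a N with hn₀
  have hiter : ∀ k : ℕ, (k : ℝ) * ((2 ^ R + 1) * D) ≤ t .clock (n₀ + k * D) := by
    intro k
    induction k with
    | zero =>
      simp only [Nat.cast_zero, zero_mul, add_zero]
      exact ht.1 .clock _ (by omega)
    | succ k ih =>
      have hc : n₀ + k * D ≡ code x [MOD prd a N] := by
        have h1 : k * D ≡ 0 [MOD prd a N] :=
          (Nat.modEq_zero_iff_dvd).2 (Dvd.dvd.mul_left (Dvd.intro _ rfl) _)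
        have h2 : n₀ ≡ code x [MOD prd a N] := add_prd_modEq _ dvd_rfl
        simpa using h2.add h1
      have := gain ht hacc (n := n₀ + k * D) (by omega) hc
      rw [← hD] at this
      have e : n₀ + k * D + D = n₀ + (k + 1) * D := by ring
      rw [e] at this
      push_cast at this ⊢
      linarith
  have hDr : (0 : ℝ) < D := by exact_mod_cast hDpos
  have hlim1 : Tendsto (fun k : ℕ => t .clock (n₀ + k * D) / ((n₀ + k * D : ℕ) : ℝ)) atTop
      (𝓝 Λ) := by
    refine hΛ.comp (tendsto_atTop_mono (f := fun k : ℕ => k) ?_ tendsto_id)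
    intro k
    have : k ≤ k * D := Nat.le_mul_of_pos_right _ hDpos
    show k ≤ n₀ + k * D
    omega
  have hlim2 : Tendsto (fun k : ℕ => ((2 : ℝ) ^ R + 1) * D / ((n₀ : ℝ) / k + D)) atTop
      (𝓝 (((2 : ℝ) ^ R + 1) * D / (0 + D))) := by
    refine tendsto_const_nhds.div ((tendsto_const_div_atTop_nhds_zero_nat _).add
      tendsto_const_nhds) (by positivity)
  have hle : ((2 : ℝ) ^ R + 1) * D / (0 + D) ≤ Λ := by
    refine le_of_tendsto_of_tendsto hlim2 hlim1 ?_
    filter_upwards [eventually_ge_atTop 1] with k hk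
    have hk' : (0 : ℝ) < k := by exact_mod_cast hk
    have e : ((2 : ℝ) ^ R + 1) * D / ((n₀ : ℝ) / k + D)
        = k * ((2 ^ R + 1) * D) / ((n₀ + k * D : ℕ) : ℝ) := by
      push_cast
      field_simp
    rw [e]
    gcongr
    exact hiter k
  refine lt_of_lt_of_le ?_ hle
  rw [zero_add, mul_div_assoc, div_self hDr.ne', mul_one]
  linarith

end schedules

/-- Correctness of the reduction. -/
theorem reduction (R : ℕ) (M : LBA q a) (x : Fin (N + 1) → Fin a) :
    (graph R M x).Consistent ∧ (graph R M x).StronglyConnected ∧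
    (graph R M x).Simple ∧ (graph R M x).Balanced ∧
    ∃ φ : ℝ, (∀ i, (graph R M x).HasFrequency i φ) ∧
      (M.Accepts x → 0 < φ ∧ φ < 1 / 2 ^ R) ∧ (¬ M.Accepts x → φ = 1) := by
  have hcons : (graph R M x).Consistent := ⟨_, consistent R M x⟩
  refine ⟨hcons, ?_, ?_, ?_, ?_⟩
  · intro i j
    have h1 : isArc M i (.clock : Task q a N) = true := by cases i <;> rfl
    have h2 : isArc M (.clock : Task q a N) j = true := by cases j <;> rfl
    refine (Relation.ReflTransGen.single (b := .clock) ?_).tail ?_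
    · exact ⟨_, (mem_arcs R M x _).2 ⟨i, .clock, h1, rfl⟩, rfl, rfl⟩
    · exact ⟨_, (mem_arcs R M x _).2 ⟨.clock, j, h2, rfl⟩, rfl, rfl⟩
  · intro e he f hf h1 h2
    obtain ⟨i, j, -, rfl⟩ := (mem_arcs R M x e).1 he
    obtain ⟨i', j', -, rfl⟩ := (mem_arcs R M x f).1 hf
    obtain rfl : i = i' := h1
    obtain rfl : j = j' := h2
    rfl
  · intro e he
    obtain ⟨i, j, -, rfl⟩ := (mem_arcs R M x e).1 he
    rfl
  · obtain ⟨t, ht⟩ := (graph R M x).exists_earliest hcons
    obtain ⟨Λ, hΛ⟩ := rate ht
    have h1 := rate_ge_one ht.1 (hΛ .clock)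
    have h0 : 0 < Λ := by linarith
    refine ⟨1 / Λ, ?_, ?_, ?_⟩
    · intro i
      refine ⟨t, ht, ?_⟩
      have := (hΛ i).inv₀ h0.ne'
      rw [one_div]
      refine this.congr fun n => ?_
      rw [inv_div]
    · intro hacc
      have h2 := fast_rate ht.1 hacc (hΛ .clock)
      exact ⟨by positivity, one_div_lt_one_div_of_lt (by positivity) h2⟩
    · intro hno
      rw [slow_rate ht hno (hΛ .clock), div_one]

/-! ## The size of the graph -/

section size

variable {R s : ℕ}

lemma md_le_pow (hs : N + q + a + R + 2 ≤ s) (j : Fin (N + 1)) : md a N j ≤ 2 ^ (s ^ 2) := by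
  have h1 : md a N j ≤ (K a N + 1).factorial := by
    have e : (K a N + 1).factorial = K a N * (K a N).factorial + (K a N).factorial := by
      rw [Nat.factorial_succ]; ring
    have h2 : (j : ℕ) + 1 ≤ K a N := by have := j.2; unfold K; omega
    have h3 : 1 ≤ (K a N).factorial := Nat.factorial_pos _
    have h4 := Nat.mul_le_mul_right (K a N).factorial h2
    unfold md
    rw [e]
    omega
  calc md a N j ≤ (K a N + 1).factorial := h1
    _ ≤ s.factorial := Nat.factorial_le (by unfold K; omega)
    _ ≤ s ^ s := Nat.factorial_le_pow s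
    _ ≤ (2 ^ s) ^ s := Nat.pow_le_pow_left Nat.lt_two_pow_self.le _
    _ = 2 ^ (s ^ 2) := by rw [← pow_mul, sq]

lemma prd_le_pow (hs : N + q + a + R + 2 ≤ s) : prd a N ≤ 2 ^ (s ^ 3) := by
  calc prd a N ≤ ∏ _j : Fin (N + 1), 2 ^ (s ^ 2) :=
        Finset.prod_le_prod' fun j _ => md_le_pow hs j
    _ = 2 ^ (s ^ 2 * (N + 1)) := by simp [pow_mul]
    _ ≤ 2 ^ (s ^ 3) := by
        apply Nat.pow_le_pow_right (by norm_num)
        rw [pow_succ s 2]
        exact Nat.mul_le_mul_left _ (by omega)

lemma exps (hs : N + q + a + R + 2 ≤ s) :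
    2 ≤ s ∧ s ≤ s ^ 3 ∧ 2 * s ≤ s ^ 3 ∧ s ^ 2 ≤ s ^ 3 ∧ 4 ≤ s ^ 3 := by
  have h2 : 2 ≤ s := by omega
  refine ⟨h2, ?_, ?_, ?_, ?_⟩ <;> nlinarith [sq_nonneg s, mul_le_mul h2 h2 (by omega) (by omega)]

lemma base_le_pow (hs : N + q + a + R + 2 ≤ s) : base q a N ≤ 2 ^ (4 * s ^ 3) := by
  obtain ⟨h2, e1, e2, e3, e4⟩ := exps hs
  have hlt : s < 2 ^ s := Nat.lt_two_pow_self
  have hq : q ≤ 2 ^ s := by omega
  have hN : N + 1 ≤ 2 ^ s := by omega
  have hN3 : N + 3 ≤ 2 ^ s := by omega
  have ha : a ^ (N + 1) ≤ 2 ^ (s ^ 2) := by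
    calc a ^ (N + 1) ≤ (2 ^ s) ^ (N + 1) := Nat.pow_le_pow_left (by omega) _
      _ = 2 ^ (s * (N + 1)) := by rw [pow_mul]
      _ ≤ 2 ^ (s ^ 2) := by
        apply Nat.pow_le_pow_right (by norm_num)
        rw [sq]; exact Nat.mul_le_mul_left _ (by omega)
  have h1 : q * (N + 1) * a ^ (N + 1) ≤ 2 ^ (s + s + s ^ 2) := by
    rw [pow_add 2 (s + s), pow_add 2 s s]
    exact Nat.mul_le_mul (Nat.mul_le_mul hq hN) ha
  have h3 : q * (N + 1) * a ^ (N + 1) + (N + 3) ≤ 2 ^ (s + s + s ^ 2 + 1) := by
    have : 2 ^ s ≤ 2 ^ (s + s + s ^ 2) := Nat.pow_le_pow_right (by norm_num) (by omega)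
    rw [pow_succ 2 (s + s + s ^ 2)]
    omega
  have h4 : 3 * (q * (N + 1) * a ^ (N + 1) + N + 3) ≤ 2 ^ (s + s + s ^ 2 + 1 + 2) := by
    rw [pow_add _ _ 2]
    omega
  have h5 : 3 * (q * (N + 1) * a ^ (N + 1) + N + 3) * prd a N
      ≤ 2 ^ (s + s + s ^ 2 + 1 + 2 + s ^ 3) := by
    rw [pow_add _ _ (s ^ 3)]
    exact Nat.mul_le_mul h4 (prd_le_pow hs)
  have h6 : base q a N ≤ 2 ^ (s + s + s ^ 2 + 1 + 2 + s ^ 3 + 1) := by
    have : 2 ^ 2 ≤ 2 ^ (s + s + s ^ 2 + 1 + 2 + s ^ 3) :=
      Nat.pow_le_pow_right (by norm_num) (by omega)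
    unfold base
    rw [pow_succ _ (s + s + s ^ 2 + 1 + 2 + s ^ 3)]
    omega
  exact h6.trans (Nat.pow_le_pow_right (by norm_num) (by omega))

lemma bonus_le_pow (hs : N + q + a + R + 2 ≤ s) : bonus R q a N ≤ 2 ^ (7 * s ^ 3) := by
  obtain ⟨h2, e1, e2, e3, e4⟩ := exps hs
  have hb := base_le_pow hs
  have hp := prd_le_pow hs
  have hR : 2 ^ R ≤ 2 ^ (s ^ 3) := Nat.pow_le_pow_right (by norm_num) (by omega)
  have h1 : 2 ^ R * (prd a N * base q a N) ≤ 2 ^ (6 * s ^ 3) := by
    calc 2 ^ R * (prd a N * base q a N) ≤ 2 ^ (s ^ 3) * (2 ^ (s ^ 3) * 2 ^ (4 * s ^ 3)) :=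
          Nat.mul_le_mul hR (Nat.mul_le_mul hp hb)
      _ = 2 ^ (6 * s ^ 3) := by rw [← pow_add, ← pow_add]; congr 1; ring
  have h3 : 2 ^ (4 * s ^ 3) ≤ 2 ^ (6 * s ^ 3) := Nat.pow_le_pow_right (by norm_num) (by omega)
  have h5 : 2 ^ (6 * s ^ 3 + 1) ≤ 2 ^ (7 * s ^ 3) := Nat.pow_le_pow_right (by norm_num) (by omega)
  unfold bonus
  rw [pow_succ] at h5
  omega

lemma delay_le_pow (hs : N + q + a + R + 2 ≤ s) : delay R q a N ≤ 2 ^ (8 * s ^ 3) := by
  calc delay R q a N ≤ 2 ^ (s ^ 3) * 2 ^ (7 * s ^ 3) :=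
        Nat.mul_le_mul (prd_le_pow hs) (bonus_le_pow hs)
    _ = 2 ^ (8 * s ^ 3) := by rw [← pow_add]; congr 1; ring

lemma sh_le_pow (hs : N + q + a + R + 2 ≤ s) (M : LBA q a) (i j : Task q a N) :
    sh R M i j ≤ 2 ^ (8 * s ^ 3) := by
  obtain ⟨h2, e1, e2, e3, e4⟩ := exps hs
  have hd := delay_le_pow hs
  have hp : prd a N ≤ 2 ^ (8 * s ^ 3) :=
    (prd_le_pow hs).trans (Nat.pow_le_pow_right (by norm_num) (by omega))
  have h1 : 1 ≤ 2 ^ (8 * s ^ 3) := Nat.one_le_two_pow
  unfold sh
  split
  · exact h1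
  · split
    · exact hp
    · exact hd
  · exact hd
  · exact hp
  · exact hp
  · rename_i s' i b _
    have h5 : (md a N i + (M.δ s' b).2.1 - b) * co a N i ≤ 2 * prd a N := by
      rw [← md_mul_co i]
      have := lt_md (N := N) (M.δ s' b).2.1 i
      calc (md a N i + (M.δ s' b).2.1 - b) * co a N i ≤ (2 * md a N i) * co a N i :=
            Nat.mul_le_mul_right _ (by omega)
        _ = 2 * (md a N i * co a N i) := by ring
    have h6 : 2 * prd a N ≤ 2 ^ (s ^ 3 + 1) := by
      rw [pow_succ]; have := prd_le_pow hs; omega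
    exact h5.trans (h6.trans (Nat.pow_le_pow_right (by norm_num) (by omega)))
  · exact h1

lemma gm_le_pow (hs : N + q + a + R + 2 ≤ s) (i j : Task q a N) : gm i j ≤ 2 ^ (s ^ 2) := by
  unfold gm
  split
  · split
    · exact md_le_pow hs _
    · exact Nat.one_le_two_pow
  · exact md_le_pow hs _
  · exact Nat.one_le_two_pow

lemma off_lt_gm (x : Fin (N + 1) → Fin a) (i j : Task q a N) : off x i j < gm i j := by
  unfold off gm
  split
  · split
    · exact Nat.mod_lt _ (md_pos _)
    · exact one_pos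
  · exact Nat.mod_lt _ (md_pos _)
  · exact one_pos

lemma counts (hs : N + q + a + R + 2 ≤ s) : q * (N + 1) ≤ s ^ 3 ∧ q * ((N + 1) * a) ≤ s ^ 3 := by
  have h2 : 2 ≤ s := by omega
  constructor
  · calc q * (N + 1) ≤ s * s := Nat.mul_le_mul (by omega) (by omega)
      _ ≤ s * s * s := Nat.le_mul_of_pos_right _ (by omega)
      _ = s ^ 3 := by ring
  · have : s ^ 3 = s * (s * s) := by ring
    rw [this]
    exact Nat.mul_le_mul (by omega) (Nat.mul_le_mul (by omega) (by omega))

lemma card_task_le (hs : N + q + a + R + 2 ≤ s) : Fintype.card (Task q a N) ≤ 4 * s ^ 3 := by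
  obtain ⟨h2, e1, e2, e3, e4⟩ := exps hs
  have h := Fintype.card_le_of_injective _ (Task.toSum_injective (q := q) (a := a) (N := N))
  simp only [Fintype.card_sum, Fintype.card_unit, Fintype.card_fin, Fintype.card_prod] at h
  obtain ⟨h1, h3⟩ := counts hs
  omega

lemma card_arcs_le (hs : N + q + a + R + 2 ≤ s) (M : LBA q a) (x : Fin (N + 1) → Fin a) :
    Multiset.card (arcs R M x) ≤ 14 * s ^ 3 := by
  obtain ⟨h2, e1, e2, e3, e4⟩ := exps hs
  have h := card_task_le hs
  obtain ⟨h1, h3⟩ := counts hs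
  simp only [arcs, Multiset.card_add, Multiset.card_map, Multiset.card_singleton, Finset.card_val,
    Finset.card_univ, Fintype.card_fin, Fintype.card_prod]
  omega

lemma size_le_of_le_pow {n k : ℕ} (h : n ≤ 2 ^ k) : n.size ≤ k + 1 :=
  Nat.size_le.2 (lt_of_le_of_lt h (Nat.pow_lt_pow_right (by norm_num) (by omega)))

lemma size_le_self' (n : ℕ) : n.size ≤ n := Nat.size_le.2 Nat.lt_two_pow_self

lemma graph_size_le (hs : N + q + a + R + 2 ≤ s) (M : LBA q a) (x : Fin (N + 1) → Fin a) :
    (graph R M x).size ≤ 400 * s ^ 6 := by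
  obtain ⟨h2, e1, e2, e3, e4⟩ := exps hs
  have hc := card_task_le hs
  have hT : ∑ i, (1 + ((graph R M x).p i).size) ≤ 36 * s ^ 6 := by
    have h1 : ∀ i, 1 + ((graph R M x).p i).size ≤ 9 * s ^ 3 := by
      intro i
      have : ((graph R M x).p i).size ≤ 7 * s ^ 3 + 1 :=
        size_le_of_le_pow ((pt_le R i).trans (bonus_le_pow hs))
      omega
    calc ∑ i, (1 + ((graph R M x).p i).size) ≤ ∑ _i : Task q a N, 9 * s ^ 3 :=
          Finset.sum_le_sum fun i _ => h1 i
      _ = Fintype.card (Task q a N) * (9 * s ^ 3) := by simp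
      _ ≤ (4 * s ^ 3) * (9 * s ^ 3) := Nat.mul_le_mul_right _ hc
      _ = 36 * s ^ 6 := by ring
  have hE : ((graph R M x).arcs.map fun e => 2 * (Fintype.card (Task q a N)).size + e.α.size
      + e.α'.size + (1 + e.h.natAbs.size) + (1 + e.h'.natAbs.size)).sum ≤ 350 * s ^ 6 := by
    have h1 : ∀ n ∈ ((graph R M x).arcs.map fun e => 2 * (Fintype.card (Task q a N)).size
        + e.α.size + e.α'.size + (1 + e.h.natAbs.size) + (1 + e.h'.natAbs.size)),
        n ≤ 25 * s ^ 3 := by
      intro n hn
      obtain ⟨e, he, rfl⟩ := Multiset.mem_map.1 hn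
      obtain ⟨i, j, -, rfl⟩ := (mem_arcs R M x e).1 he
      have g1 : (gm i j).size ≤ s ^ 2 + 1 := size_le_of_le_pow (gm_le_pow hs i j)
      have ho : off x i j ≤ 2 ^ (s ^ 2) := (off_lt_gm x i j).le.trans (gm_le_pow hs i j)
      have g3 : (((off x i j : ℕ) : ℤ)).natAbs.size ≤ s ^ 2 + 1 := by
        rw [Int.natAbs_natCast]
        exact size_le_of_le_pow ho
      have g4 : (((off x i j : ℕ) : ℤ) + (sh R M i j : ℕ)).natAbs.size ≤ 8 * s ^ 3 + 1 + 1 := by
        have : (((off x i j : ℕ) : ℤ) + (sh R M i j : ℕ)).natAbs = off x i j + sh R M i j := by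
          omega
        rw [this]
        refine size_le_of_le_pow ?_
        have h3 := sh_le_pow hs M i j
        have h4 : 2 ^ (s ^ 2) ≤ 2 ^ (8 * s ^ 3) := Nat.pow_le_pow_right (by norm_num) (by omega)
        rw [pow_succ]
        omega
      have g5 := size_le_self' (Fintype.card (Task q a N))
      simp only [mkArc]
      omega
    calc _ ≤ Multiset.card ((graph R M x).arcs.map fun e => 2 * (Fintype.card (Task q a N)).size
        + e.α.size + e.α'.size + (1 + e.h.natAbs.size) + (1 + e.h'.natAbs.size)) • (25 * s ^ 3) :=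
          Multiset.sum_le_card_nsmul _ _ h1
      _ = Multiset.card (arcs R M x) * (25 * s ^ 3) := by simp [graph]
      _ ≤ (14 * s ^ 3) * (25 * s ^ 3) := Nat.mul_le_mul_right _ (card_arcs_le hs M x)
      _ = 350 * s ^ 6 := by ring
  unfold LinGraph.size
  omega

end size

/-- Main theorem. -/
theorem result {q a N : ℕ} (R : ℕ) (M : LBA q a) (x : Fin (N + 1) → Fin a) :
    (graph R M x).Consistent ∧ (graph R M x).StronglyConnected ∧
    (graph R M x).Simple ∧ (graph R M x).Balanced ∧
    (graph R M x).size ≤ 400 * (N + q + a + R + 2) ^ 6 ∧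
    ∃ φ : ℝ, (∀ i, (graph R M x).HasFrequency i φ) ∧
      (M.Accepts x → 0 < φ ∧ φ < 1 / 2 ^ R) ∧ (¬ M.Accepts x → φ = 1) := by
  obtain ⟨h1, h2, h3, h4, h5⟩ := reduction R M x
  exact ⟨h1, h2, h3, h4, graph_size_le le_rfl M x, h5⟩

end Pool.Agent.Results.MP_b03ab8_lc.PSPACEHard
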